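import Mathlib

set_option autoImplicit false

/-!
# A uniformly asymptotically regular Lipschitz self-map of the unit ball of Lin's renormed `ℓ¹`
without a fixed point
-/

namespace Pool.Agent.Results.MP_7b51c2_an.UARWithoutFixedPoint

open Finset

/-- the space `ℓ¹` of real sequences `x = (x 0, x 1, …)` -/
abbrev L1 : Type := lp (fun _ : ℕ => ℝ) 1

/-- Lin's norm `‖x‖_γ = sup_{k ≥ 1} (8^k / (1 + 8^k)) ∑_{n ≥ k} |x_n|` of a sequence
`(x_1, x_2, …)`. Here the entries of a sequence are indexed from `0`, so that `x_n` is `x (n-1)` and,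
with `k = j + 1`, the sum is `∑_i |x (i + j)|`. -/
noncomputable def linNorm (x : L1) : ℝ :=
  ⨆ j : ℕ, (8 : ℝ) ^ (j + 1) / (1 + 8 ^ (j + 1)) * ∑' i : ℕ, |x (i + j)|

/-- the closed unit ball of `ℓ¹` with Lin's norm -/
def Ball : Type := {x : L1 // linNorm x ≤ 1}

/-! ### Generalities on `ℓ¹` -/

lemma norm_eq (x : L1) : ‖x‖ = ∑' i, |x i| := by
  rw [lp.norm_eq_tsum_rpow (by simp)]
  simp

lemma summ (x : L1) : Summable fun i => |x i| := by
  have := x.2.summable (by simp)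
  simpa using this

lemma mem_of_summable {f : ℕ → ℝ} (hf : Summable fun i => |f i|) :
    Memℓp f 1 := memℓp_gen (by simpa using hf)

/-- sequence as an element of `ℓ¹` -/
def mk (f : ℕ → ℝ) (hf : Summable fun i => |f i|) : L1 := ⟨f, mem_of_summable hf⟩

@[simp] lemma mk_apply (f : ℕ → ℝ) (hf : Summable fun i => |f i|) (n : ℕ) : mk f hf n = f n := rfl

lemma tail_le (x : L1) (j : ℕ) : ∑' i : ℕ, |x (i + j)| ≤ ‖x‖ := by
  rw [norm_eq, ← (summ x).sum_add_tsum_nat_add j]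
  have : 0 ≤ ∑ i ∈ range j, |x i| := sum_nonneg fun _ _ => abs_nonneg _
  linarith

lemma gam_le (j : ℕ) : (8 : ℝ) ^ (j + 1) / (1 + 8 ^ (j + 1)) ≤ 1 := by
  rw [div_le_one (by positivity)]
  linarith

lemma term_le (x : L1) (j : ℕ) :
    (8 : ℝ) ^ (j + 1) / (1 + 8 ^ (j + 1)) * ∑' i : ℕ, |x (i + j)| ≤ ‖x‖ := by
  have h1 : 0 ≤ ∑' i : ℕ, |x (i + j)| := tsum_nonneg fun _ => abs_nonneg _
  calc _ ≤ 1 * ∑' i : ℕ, |x (i + j)| := mul_le_mul_of_nonneg_right (gam_le j) h1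
    _ ≤ ‖x‖ := by rw [one_mul]; exact tail_le x j

lemma linNorm_le (x : L1) : linNorm x ≤ ‖x‖ := ciSup_le fun j => term_le x j

lemma le_linNorm (x : L1) : ‖x‖ ≤ 9 / 8 * linNorm x := by
  have h1 : (8 : ℝ) ^ (0 + 1) / (1 + 8 ^ (0 + 1)) * ∑' i : ℕ, |x (i + 0)| ≤ linNorm x :=
    le_ciSup (f := fun j : ℕ => (8 : ℝ) ^ (j + 1) / (1 + 8 ^ (j + 1)) * ∑' i : ℕ, |x (i + j)|)
      ⟨‖x‖, by rintro _ ⟨j, rfl⟩; exact term_le x j⟩ 0
  simp only [add_zero, zero_add, pow_one, ← norm_eq] at h1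
  linarith

/-! ### The retraction onto the simplex -/

/-- positive part -/
noncomputable def pos (x : L1) : L1 := mk (fun n => max (x n) 0) <| by
  refine Summable.of_nonneg_of_le (fun _ => abs_nonneg _) (fun n => ?_) (summ x)
  rw [abs_of_nonneg (le_max_right _ _)]
  exact max_le (le_abs_self _) (abs_nonneg _)

lemma norm_pos_sub (x y : L1) : ‖pos x - pos y‖ ≤ ‖x - y‖ := by
  rw [norm_eq, norm_eq]
  refine (summ _).tsum_le_tsum (fun n => ?_) (summ _)
  exact abs_max_sub_max_le_abs _ _ _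

/-- the first basis vector -/
noncomputable def e0 : L1 := lp.single 1 0 (1 : ℝ)

lemma norm_e0 : ‖e0‖ = 1 := by
  unfold e0
  rw [lp.norm_single (by simp)]
  simp

lemma e0_apply (n : ℕ) : e0 n = if n = 0 then 1 else 0 := by
  unfold e0
  rw [lp.single_apply]
  by_cases h : n = 0
  · subst h; simp
  · simp [h]

/-- the simplex -/
def Sx : Set L1 := {x | (∀ n, 0 ≤ x n) ∧ ‖x‖ = 1}

/-- radial projection to the unit ball -/
noncomputable def rad (x : L1) : L1 := (max 1 ‖x‖)⁻¹ • x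

lemma norm_rad_sub (x y : L1) : ‖rad x - rad y‖ ≤ 2 * ‖x - y‖ := by
  unfold rad
  set a := max 1 ‖x‖ with ha
  set b := max 1 ‖y‖ with hb
  have ha1 : 1 ≤ a := le_max_left _ _
  have hb1 : 1 ≤ b := le_max_left _ _
  have hyb : ‖y‖ ≤ b := le_max_right _ _
  have hab : |b - a| ≤ ‖x - y‖ := by
    rw [hb, ha, max_comm 1, max_comm 1]
    refine (abs_max_sub_max_le_abs _ _ _).trans ?_
    rw [abs_sub_comm]
    exact abs_norm_sub_norm_le _ _
  have h1 : a⁻¹ • x - b⁻¹ • y = a⁻¹ • (x - y) + ((b - a) * (a⁻¹ * b⁻¹)) • y := by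
    rw [smul_sub, sub_add, ← sub_smul]
    congr 2
    field_simp
    ring
  rw [h1]
  refine (norm_add_le _ _).trans ?_
  rw [norm_smul, norm_smul, norm_mul, norm_mul, norm_inv, norm_inv, Real.norm_eq_abs, Real.norm_eq_abs,
    Real.norm_eq_abs, abs_of_nonneg (by linarith : 0 ≤ a), abs_of_nonneg (by linarith : 0 ≤ b)]
  have h2 : a⁻¹ ≤ 1 := inv_le_one_of_one_le₀ ha1
  have h3 : a⁻¹ * ‖x - y‖ ≤ ‖x - y‖ := by
    have := mul_le_mul_of_nonneg_right h2 (norm_nonneg (x - y))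
    linarith
  have h4 : b⁻¹ * ‖y‖ ≤ 1 := by
    rw [inv_mul_le_iff₀ (by linarith)]; linarith
  have h5 : |b - a| * (a⁻¹ * b⁻¹) * ‖y‖ ≤ ‖x - y‖ := by
    have e1 : |b - a| * (a⁻¹ * b⁻¹) * ‖y‖ = |b - a| * (a⁻¹ * (b⁻¹ * ‖y‖)) := by ring
    rw [e1]
    have e2 : a⁻¹ * (b⁻¹ * ‖y‖) ≤ 1 * 1 :=
      mul_le_mul h2 h4 (by positivity) (by norm_num)
    have e3 : |b - a| * (a⁻¹ * (b⁻¹ * ‖y‖)) ≤ |b - a| * 1 :=
      mul_le_mul_of_nonneg_left (by linarith) (abs_nonneg _)
    linarith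
  linarith

/-- the retraction of `ℓ¹` onto the simplex -/
noncomputable def ret (x : L1) : L1 := rad (pos x) + (max 0 (1 - ‖pos x‖)) • e0

lemma norm_ret_sub (x y : L1) : ‖ret x - ret y‖ ≤ 3 * ‖x - y‖ := by
  unfold ret
  have h1 : rad (pos x) + (max 0 (1 - ‖pos x‖)) • e0 - (rad (pos y) + (max 0 (1 - ‖pos y‖)) • e0)
      = (rad (pos x) - rad (pos y)) + (max 0 (1 - ‖pos x‖) - max 0 (1 - ‖pos y‖)) • e0 := by
    rw [sub_smul]; abel
  rw [h1]
  refine (norm_add_le _ _).trans ?_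
  rw [norm_smul, norm_e0, mul_one]
  have h2 := norm_rad_sub (pos x) (pos y)
  have h3 := norm_pos_sub x y
  have h4 : ‖max 0 (1 - ‖pos x‖) - max 0 (1 - ‖pos y‖)‖ ≤ ‖pos x - pos y‖ := by
    rw [max_comm 0, max_comm 0]
    refine (abs_max_sub_max_le_abs _ _ _).trans ?_
    have : 1 - ‖pos x‖ - (1 - ‖pos y‖) = -(‖pos x‖ - ‖pos y‖) := by ring
    rw [this, abs_neg]
    exact abs_norm_sub_norm_le _ _
  linarith

lemma sum_eq_norm {x : L1} (hx : ∀ n, 0 ≤ x n) : ‖x‖ = lp.tsumCLM ℝ ℕ ℝ x := by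
  rw [norm_eq]
  show _ = ∑' i, x i
  congr 1
  funext i
  exact abs_of_nonneg (hx i)

lemma pos_nonneg (x : L1) (n : ℕ) : 0 ≤ pos x n := le_max_right _ _

lemma ret_mem (x : L1) : ret x ∈ Sx := by
  have hn : ∀ n, 0 ≤ ret x n := by
    intro n
    have e1 : ret x n = (max 1 ‖pos x‖)⁻¹ * pos x n + max 0 (1 - ‖pos x‖) * e0 n := rfl
    rw [e1, e0_apply]
    have h1 : 0 ≤ (max 1 ‖pos x‖)⁻¹ := inv_nonneg.2 (le_trans zero_le_one (le_max_left _ _))
    have h2 := mul_nonneg h1 (pos_nonneg x n)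
    have h3 : (0 : ℝ) ≤ max 0 (1 - ‖pos x‖) * (if n = 0 then 1 else 0) :=
      mul_nonneg (le_max_left _ _) (by split_ifs <;> norm_num)
    linarith
  refine ⟨hn, ?_⟩
  rw [sum_eq_norm hn]
  unfold ret rad
  rw [map_add, map_smul, map_smul, ← sum_eq_norm (pos_nonneg x),
    ← sum_eq_norm (x := e0) (fun n => by rw [e0_apply]; split_ifs <;> norm_num), norm_e0,
    smul_eq_mul, smul_eq_mul, mul_one]
  rcases le_total 1 ‖pos x‖ with h | h
  · rw [max_eq_right h, max_eq_left (by linarith), inv_mul_cancel₀ (by linarith)]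
    ring
  · rw [max_eq_left h, max_eq_right (by linarith)]
    ring

lemma ret_eq {x : L1} (hx : x ∈ Sx) : ret x = x := by
  have h1 : pos x = x := by
    ext n
    exact max_eq_left (hx.1 n)
  unfold ret rad
  rw [h1, hx.2]
  simp

/-! ### The averaged shift -/

/-- the shifted sequence -/
def shf (x : ℕ → ℝ) : ℕ → ℝ
  | 0 => 0
  | n + 1 => x n

lemma summable_shf (x : L1) : Summable fun i => |shf x i| := by
  rw [← summable_nat_add_iff 1]
  exact summ x

/-- the right shift -/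
noncomputable def R : L1 →L[ℝ] L1 :=
  LinearMap.mkContinuous
    { toFun := fun x => mk (shf x) (summable_shf x)
      map_add' := fun x y => by
        ext n
        cases n with
        | zero => simp [shf]
        | succ n => simp [shf]
      map_smul' := fun c x => by
        ext n
        cases n with
        | zero => simp [shf]
        | succ n => simp [shf] } 1 (by
      intro x
      rw [one_mul]
      show ‖mk (shf x) (summable_shf x)‖ ≤ ‖x‖
      rw [norm_eq, norm_eq, (summ _).tsum_eq_zero_add]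
      simp [shf])

lemma R_zero (x : L1) : R x 0 = 0 := rfl
lemma R_succ (x : L1) (n : ℕ) : R x (n + 1) = x n := rfl

lemma norm_R_le : ‖R‖ ≤ 1 := LinearMap.mkContinuous_norm_le _ zero_le_one _

lemma norm_R_pow_le (n : ℕ) : ‖R ^ n‖ ≤ 1 := by
  induction n with
  | zero => rw [pow_zero]; exact ContinuousLinearMap.norm_id_le
  | succ n ih =>
    rw [pow_succ]
    refine (norm_mul_le _ _).trans ?_
    have := mul_le_mul ih norm_R_le (norm_nonneg _) zero_le_one
    linarith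

/-- the averaged shift -/
noncomputable def P : L1 →L[ℝ] L1 := (1 / 2 : ℝ) • (R + 1)

lemma P_apply (x : L1) : P x = (1 / 2 : ℝ) • (R x + x) := rfl

lemma P_mem {x : L1} (hx : x ∈ Sx) : P x ∈ Sx := by
  have h1 : ∀ n, 0 ≤ R x n := by
    intro n
    cases n with
    | zero => exact le_of_eq (R_zero x).symm
    | succ n => exact hx.1 n
  have h2 : ∀ n, 0 ≤ P x n := by
    intro n
    have e1 : P x n = (1 / 2 : ℝ) * (R x n + x n) := rfl
    rw [e1]
    have := h1 n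
    have := hx.1 n
    positivity
  refine ⟨h2, ?_⟩
  have h3 : ‖R x‖ = 1 := by
    rw [norm_eq, (summ _).tsum_eq_zero_add]
    simp only [R_zero, R_succ, abs_zero, zero_add]
    rw [← norm_eq, hx.2]
  rw [sum_eq_norm h2, P_apply, map_smul, map_add, ← sum_eq_norm h1, ← sum_eq_norm hx.1, h3, hx.2]
  norm_num

lemma P_ne {x : L1} (hx : x ∈ Sx) : P x ≠ x := by
  intro h
  have h1 : ∀ n, R x n = x n := by
    intro n
    have e1 : P x n = (1 / 2 : ℝ) * (R x n + x n) := rfl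
    rw [h] at e1
    linarith
  have h2 : ∀ n, x n = 0 := by
    intro n
    induction n with
    | zero => rw [← h1 0, R_zero]
    | succ n ih => rw [← h1 (n + 1), R_succ, ih]
  have h3 : ‖x‖ = 0 := by
    rw [norm_eq]
    simp [h2]
  rw [hx.2] at h3
  exact one_ne_zero h3

/-! ### Uniform asymptotic regularity -/

lemma expand (n : ℕ) : (R + 1) ^ n * (1 - R) =
    1 + ∑ m ∈ range (n + 1), (((n.choose (m + 1) : ℝ)) - (n.choose m : ℝ)) • R ^ (m + 1) := by
  have h1 : (R + 1) ^ n = ∑ m ∈ range (n + 1), (n.choose m : ℝ) • R ^ m := by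
    rw [(Commute.one_right R).add_pow n]
    refine sum_congr rfl fun m _ => ?_
    rw [one_pow, mul_one, ← nsmul_eq_mul', Nat.cast_smul_eq_nsmul]
  have h2 : (R + 1) ^ n = 1 + ∑ m ∈ range (n + 1), (n.choose (m + 1) : ℝ) • R ^ (m + 1) := by
    have : ∑ m ∈ range (n + 1), (n.choose m : ℝ) • R ^ m
        = ∑ m ∈ range (n + 1 + 1), (n.choose m : ℝ) • R ^ m := by
      rw [sum_range_succ _ (n + 1), Nat.choose_succ_self]
      simp
    rw [h1, this, sum_range_succ']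
    simp [add_comm]
  rw [mul_sub, mul_one]
  have h3 : (R + 1) ^ n * R = ∑ m ∈ range (n + 1), (n.choose m : ℝ) • R ^ (m + 1) := by
    rw [h1, sum_mul]
    refine sum_congr rfl fun m _ => ?_
    rw [smul_mul_assoc, pow_succ]
  rw [h3, h2, add_sub_assoc, ← sum_sub_distrib]
  congr 1
  refine sum_congr rfl fun m _ => ?_
  rw [sub_smul]

lemma choose_up {m k : ℕ} (hk : k < m) : (2 * m).choose k ≤ (2 * m).choose (k + 1) := by
  have h := Nat.choose_succ_right_eq (2 * m) k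
  have h1 : k + 1 ≤ 2 * m - k := by omega
  have h2 : (2 * m).choose k * (k + 1) ≤ (2 * m).choose (k + 1) * (k + 1) := by
    rw [h]; exact Nat.mul_le_mul_left _ h1
  exact Nat.le_of_mul_le_mul_right h2 (Nat.succ_pos k)

lemma choose_down {m k : ℕ} (hk : m ≤ k) : (2 * m).choose (k + 1) ≤ (2 * m).choose k := by
  have h := Nat.choose_succ_right_eq (2 * m) k
  have h1 : 2 * m - k ≤ k + 1 := by omega
  have h2 : (2 * m).choose (k + 1) * (k + 1) ≤ (2 * m).choose k * (k + 1) := by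
    rw [h]; exact Nat.mul_le_mul_left _ h1
  exact Nat.le_of_mul_le_mul_right h2 (Nat.succ_pos k)

lemma variation (m : ℕ) :
    1 + ∑ k ∈ range (2 * m + 1), |(((2 * m).choose (k + 1) : ℝ)) - ((2 * m).choose k : ℝ)|
      = 2 * (m.centralBinom : ℝ) := by
  have h0 : range (2 * m + 1) = range (m + (m + 1)) := by congr 1; omega
  rw [h0, sum_range_add]
  have h1 : ∑ k ∈ range m, |(((2 * m).choose (k + 1) : ℝ)) - ((2 * m).choose k : ℝ)|
      = ((2 * m).choose m : ℝ) - 1 := by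
    have : ∀ k ∈ range m, |(((2 * m).choose (k + 1) : ℝ)) - ((2 * m).choose k : ℝ)|
        = (((2 * m).choose (k + 1) : ℝ)) - ((2 * m).choose k : ℝ) := by
      intro k hk
      rw [abs_of_nonneg]
      have := choose_up (mem_range.1 hk)
      have : (((2 * m).choose k : ℕ) : ℝ) ≤ (2 * m).choose (k + 1) := by exact_mod_cast this
      linarith
    rw [sum_congr rfl this, sum_range_sub (fun k => (((2 * m).choose k : ℕ) : ℝ))]
    simp
  have h2 : ∑ k ∈ range (m + 1),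
      |(((2 * m).choose (m + k + 1) : ℝ)) - ((2 * m).choose (m + k) : ℝ)|
      = ((2 * m).choose m : ℝ) := by
    have : ∀ k ∈ range (m + 1),
        |(((2 * m).choose (m + k + 1) : ℝ)) - ((2 * m).choose (m + k) : ℝ)|
        = -((((2 * m).choose (m + (k + 1)) : ℝ)) - ((2 * m).choose (m + k) : ℝ)) := by
      intro k _
      rw [abs_of_nonpos]
      · rfl
      have := choose_down (m := m) (k := m + k) (by omega)
      have : (((2 * m).choose (m + k + 1) : ℕ) : ℝ) ≤ (2 * m).choose (m + k) := by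
        exact_mod_cast this
      linarith
    rw [sum_congr rfl this, sum_neg_distrib,
      sum_range_sub (fun k => (((2 * m).choose (m + k) : ℕ) : ℝ))]
    have e1 : (2 * m).choose (m + (m + 1)) = 0 := Nat.choose_eq_zero_of_lt (by omega)
    rw [e1]
    simp
  rw [h1, h2, Nat.centralBinom_eq_two_mul_choose]
  ring

lemma central_bound (m : ℕ) : (2 * (m : ℝ) + 1) * (m.centralBinom : ℝ) ^ 2 ≤ 16 ^ m := by
  induction m with
  | zero => simp
  | succ m ih =>
    have h := Nat.succ_mul_centralBinom_succ m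
    have h' : ((m : ℝ) + 1) * ((m + 1).centralBinom : ℝ) = 2 * (2 * m + 1) * (m.centralBinom : ℝ) := by
      exact_mod_cast h
    have h1 : (((m : ℝ) + 1) * ((m + 1).centralBinom : ℝ)) ^ 2
        = 4 * (2 * m + 1) ^ 2 * (m.centralBinom : ℝ) ^ 2 := by
      rw [h']; ring
    have h2 : ((m : ℝ) + 1) ^ 2 * ((2 * ((m : ℝ) + 1) + 1) * ((m + 1).centralBinom : ℝ) ^ 2)
        ≤ ((m : ℝ) + 1) ^ 2 * 16 ^ (m + 1) := by
      calc ((m : ℝ) + 1) ^ 2 * ((2 * ((m : ℝ) + 1) + 1) * ((m + 1).centralBinom : ℝ) ^ 2)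
          = (2 * m + 3) * (((m : ℝ) + 1) * ((m + 1).centralBinom : ℝ)) ^ 2 := by ring
        _ = 4 * ((2 * m + 3) * (2 * m + 1)) * ((2 * m + 1) * (m.centralBinom : ℝ) ^ 2) := by
            rw [h1]; ring
        _ ≤ 4 * (4 * ((m : ℝ) + 1) ^ 2) * 16 ^ m := by
            have hm : (0 : ℝ) ≤ m := Nat.cast_nonneg m
            apply mul_le_mul _ ih (by positivity) (by positivity)
            nlinarith
        _ = ((m : ℝ) + 1) ^ 2 * 16 ^ (m + 1) := by rw [pow_succ]; ring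
    have h3 : (0 : ℝ) < ((m : ℝ) + 1) ^ 2 := by positivity
    have := le_of_mul_le_mul_left h2 h3
    push_cast
    exact this

lemma norm_diff_even (m : ℕ) : ‖P ^ (2 * m) - P ^ (2 * m + 1)‖ ≤ 1 / √(2 * (m : ℝ) + 1) := by
  have h1 : P ^ (2 * m) - P ^ (2 * m + 1)
      = ((1 / 2 : ℝ) ^ (2 * m + 1)) • ((R + 1) ^ (2 * m) * (1 - R)) := by
    have e1 : P ^ (2 * m) = ((1 / 2 : ℝ) ^ (2 * m)) • (R + 1) ^ (2 * m) := by
      unfold P; rw [smul_pow]
    have e2 : (1 : L1 →L[ℝ] L1) - P = (1 / 2 : ℝ) • (1 - R) := by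
      unfold P
      rw [smul_add, smul_sub]
      have : (1 : L1 →L[ℝ] L1) = (1 / 2 : ℝ) • 1 + (1 / 2 : ℝ) • 1 := by
        rw [← add_smul]; norm_num
      nth_rewrite 1 [this]
      abel
    calc P ^ (2 * m) - P ^ (2 * m + 1) = P ^ (2 * m) * (1 - P) := by
          rw [mul_sub, mul_one, pow_succ]
      _ = _ := by
          rw [e1, e2, smul_mul_smul_comm, ← pow_succ]
  rw [h1, norm_smul, expand]
  have h2 : ‖(1 : L1 →L[ℝ] L1) + ∑ k ∈ range (2 * m + 1),
      ((((2 * m).choose (k + 1) : ℝ)) - ((2 * m).choose k : ℝ)) • R ^ (k + 1)‖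
      ≤ 2 * (m.centralBinom : ℝ) := by
    rw [← variation m]
    refine (norm_add_le _ _).trans (add_le_add ContinuousLinearMap.norm_id_le ?_)
    refine (norm_sum_le _ _).trans (sum_le_sum fun k _ => ?_)
    rw [norm_smul, Real.norm_eq_abs]
    have := mul_le_mul_of_nonneg_left (norm_R_pow_le (k + 1))
      (abs_nonneg ((((2 * m).choose (k + 1) : ℝ)) - ((2 * m).choose k : ℝ)))
    linarith
  have h3 : (m.centralBinom : ℝ) ≤ 4 ^ m / √(2 * (m : ℝ) + 1) := by
    rw [le_div_iff₀ (by positivity)]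
    have h4 := central_bound m
    have h5 : ((m.centralBinom : ℝ) * √(2 * (m : ℝ) + 1)) ^ 2 ≤ (4 ^ m) ^ 2 := by
      rw [mul_pow, Real.sq_sqrt (by positivity), ← pow_mul, mul_comm m 2, pow_mul]
      norm_num
      linarith
    exact (sq_le_sq₀ (by positivity) (by positivity)).1 h5
  have h4 : ‖((1 / 2 : ℝ) ^ (2 * m + 1))‖ = 1 / 2 * (1 / 4 ^ m) := by
    rw [norm_pow, pow_succ, pow_mul]
    norm_num
    rw [div_pow, one_pow]
    ring
  rw [h4]
  have h6 : 0 < (4 : ℝ) ^ m := by positivity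
  calc 1 / 2 * (1 / 4 ^ m) * _ ≤ 1 / 2 * (1 / 4 ^ m) * (2 * (4 ^ m / √(2 * (m : ℝ) + 1))) := by
        apply mul_le_mul_of_nonneg_left _ (by positivity)
        linarith
    _ = 1 / √(2 * (m : ℝ) + 1) := by
        field_simp

lemma norm_P_le : ‖P‖ ≤ 1 := by
  unfold P
  rw [norm_smul]
  have h1 : ‖R + 1‖ ≤ 1 + 1 :=
    (norm_add_le _ _).trans (add_le_add norm_R_le ContinuousLinearMap.norm_id_le)
  have : ‖(1 / 2 : ℝ)‖ = 1 / 2 := by norm_num
  rw [this]
  linarith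

lemma norm_P_pow_le (n : ℕ) : ‖P ^ n‖ ≤ 1 := by
  induction n with
  | zero => rw [pow_zero]; exact ContinuousLinearMap.norm_id_le
  | succ n ih =>
    rw [pow_succ]
    refine (norm_mul_le _ _).trans ?_
    have := mul_le_mul ih norm_P_le (norm_nonneg _) zero_le_one
    linarith

/-- The averaged shift is asymptotically regular in the operator norm. -/
lemma norm_diff {n : ℕ} (hn : 1 ≤ n) : ‖P ^ n - P ^ (n + 1)‖ ≤ 1 / √(n : ℝ) := by
  have h1 : P ^ n - P ^ (n + 1) = P ^ (n % 2) * (P ^ (2 * (n / 2)) - P ^ (2 * (n / 2) + 1)) := by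
    rw [mul_sub, ← pow_add, ← pow_add, ← add_assoc, Nat.mod_add_div]
  rw [h1]
  refine (norm_mul_le _ _).trans ?_
  have h2 := norm_diff_even (n / 2)
  have h3 : (n : ℝ) ≤ 2 * ((n / 2 : ℕ) : ℝ) + 1 := by
    have : n ≤ 2 * (n / 2) + 1 := by omega
    exact_mod_cast this
  have h4 : 1 / √(2 * ((n / 2 : ℕ) : ℝ) + 1) ≤ 1 / √(n : ℝ) := by
    apply one_div_le_one_div_of_le
    · apply Real.sqrt_pos.2
      exact_mod_cast hn
    · exact Real.sqrt_le_sqrt h3
  calc ‖P ^ (n % 2)‖ * ‖P ^ (2 * (n / 2)) - P ^ (2 * (n / 2) + 1)‖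
      ≤ 1 * (1 / √(2 * ((n / 2 : ℕ) : ℝ) + 1)) :=
        mul_le_mul (norm_P_pow_le _) h2 (norm_nonneg _) zero_le_one
    _ ≤ _ := by rw [one_mul]; exact h4

/-! ### The map -/

/-- the map `P ∘ ret` on the ball -/
noncomputable def T (x : Ball) : Ball :=
  ⟨P (ret x.1), (linNorm_le _).trans (le_of_eq (P_mem (ret_mem x.1)).2)⟩

lemma P_pow_mem {x : L1} (hx : x ∈ Sx) (n : ℕ) : (P ^ n) x ∈ Sx := by
  induction n with
  | zero => simpa using hx
  | succ n ih =>
    rw [pow_succ']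
    exact P_mem ih

lemma T_iterate (n : ℕ) (x : Ball) : (T^[n + 1] x).1 = (P ^ (n + 1)) (ret x.1) := by
  induction n with
  | zero => simp [T]
  | succ n ih =>
    rw [Function.iterate_succ_apply']
    show P (ret (T^[n + 1] x).1) = _
    rw [ih, ret_eq (P_pow_mem (ret_mem x.1) (n + 1)), pow_succ' P (n + 1)]
    rfl

/-- There is a Lipschitz self-map `T` of the closed unit ball of `ℓ¹` with Lin's norm which is
uniformly asymptotically regular, that is `sup_x ‖T^n x - T^(n+1) x‖_γ → 0`, and which has no fixed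
point. -/
theorem result : ∃ T : Ball → Ball,
    (∃ L : ℝ, ∀ x y : Ball, linNorm ((T x).1 - (T y).1) ≤ L * linNorm (x.1 - y.1)) ∧
    (∀ ε : ℝ, 0 < ε → ∃ N : ℕ, ∀ n : ℕ, N ≤ n → ∀ x : Ball,
      linNorm ((T^[n] x).1 - (T^[n + 1] x).1) ≤ ε) ∧
    ∀ x : Ball, T x ≠ x := by
  refine ⟨T, ⟨27 / 8, fun x y => ?_⟩, fun ε hε => ?_, fun x hx => ?_⟩
  · have h1 : (T x).1 - (T y).1 = P (ret x.1 - ret y.1) := by
      rw [map_sub]; rfl
    rw [h1]
    have h2 := linNorm_le (P (ret x.1 - ret y.1))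
    have h3 := P.le_opNorm (ret x.1 - ret y.1)
    have h4 := norm_ret_sub x.1 y.1
    have h5 := le_linNorm (x.1 - y.1)
    have h6 : ‖P‖ * ‖ret x.1 - ret y.1‖ ≤ 1 * ‖ret x.1 - ret y.1‖ :=
      mul_le_mul_of_nonneg_right norm_P_le (norm_nonneg _)
    linarith
  · obtain ⟨N, hN⟩ := exists_nat_gt ((1 / ε) ^ 2)
    refine ⟨N + 1, fun n hn x => ?_⟩
    obtain ⟨m, rfl⟩ : ∃ m, n = m + 1 := ⟨n - 1, by omega⟩
    rw [T_iterate, T_iterate]
    have h1 : (P ^ (m + 1)) (ret x.1) - (P ^ (m + 1 + 1)) (ret x.1)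
        = (P ^ (m + 1) - P ^ (m + 1 + 1)) (ret x.1) := rfl
    rw [h1]
    refine (linNorm_le _).trans ((ContinuousLinearMap.le_opNorm _ _).trans ?_)
    rw [(ret_mem x.1).2, mul_one]
    refine (norm_diff (Nat.succ_le_succ (Nat.zero_le m))).trans ?_
    have h2 : (1 / ε) ≤ √((m + 1 : ℕ) : ℝ) := by
      apply Real.le_sqrt_of_sq_le
      have : (N : ℝ) ≤ ((m + 1 : ℕ) : ℝ) := by exact_mod_cast (by omega : N ≤ m + 1)
      linarith
    have h3 : 0 < 1 / ε := by positivity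
    rw [div_le_iff₀ (lt_of_lt_of_le h3 h2)]
    have := mul_le_mul_of_nonneg_left h2 hε.le
    rwa [mul_one_div_cancel hε.ne'] at this
  · have h1 : P (ret x.1) = x.1 := congrArg Subtype.val hx
    have h2 : x.1 ∈ Sx := h1 ▸ P_mem (ret_mem x.1)
    rw [ret_eq h2] at h1
    exact P_ne h2 h1

end Pool.Agent.Results.MP_7b51c2_an.UARWithoutFixedPoint
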